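import Mathlib
import Pool.Agent.Helper817_sse.Final

set_option autoImplicit false

namespace Pool.Agent.Results.MP_71aad1_an.NilpotentImage

open Pool.Agent.Helper817_sse

/-- Let `G` be a nontrivial finite group, `θ` an integral representation of `G` such that some
`θ g0` has odd trace, `A` a `G`-primitive matrix whose image under `θ` is nilpotent, and `J` a finite
set of odd numbers `q` such that the trace of the `2q`-th power of the augmentation of `A` vanishes.
Then there are `2 ^ |J|` `G`-primitive matrices, strong shift equivalent to `A` over the integral group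
ring and pairwise not strong shift equivalent over the positive cone of the group ring. -/
theorem result :
  ∀ (G : Type) [Group G] [Fintype G] [Nontrivial G] (d : ℕ) (θ : G →* Matrix (Fin d) (Fin d) ℤ)
    (g0 : G), (θ g0).trace % 2 = 1 →
    ∀ (A : Σ n : ℕ, (Fin n → Fin n → G → ℤ)),
    (0 < A.1 ∧ (∀ i j g, 0 ≤ A.2 i j g) ∧
      ∃ k : ℕ, ∀ i j g, 0 <
        ((fun M : Fin A.1 → Fin A.1 → G → ℤ =>
            fun i l g => ∑ j, ∑ h : G, M i j h * A.2 j l (h⁻¹ * g))^[k] A.2) i j g) →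
    IsNilpotent (Matrix.of fun (u v : Fin A.1 × Fin d) => ∑ g, A.2 u.1 v.1 g * θ g u.2 v.2) →
    ∀ J : Finset ℕ, (∀ q ∈ J, q % 2 = 1 ∧
        ((Matrix.of fun (i j : Fin A.1) => ∑ g, A.2 i j g) ^ (2 * q)).trace = 0) →
    ∃ f : Fin (2 ^ J.card) → (Σ n : ℕ, (Fin n → Fin n → G → ℤ)),
      (∀ m, (0 < (f m).1 ∧ (∀ i j g, 0 ≤ (f m).2 i j g) ∧
          ∃ k : ℕ, ∀ i j g, 0 <
            ((fun M : Fin (f m).1 → Fin (f m).1 → G → ℤ =>
                fun i l g => ∑ j, ∑ h : G, M i j h * (f m).2 j l (h⁻¹ * g))^[k] (f m).2) i j g) ∧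
        Relation.EqvGen
          (fun P Q : (Σ n : ℕ, (Fin n → Fin n → G → ℤ)) =>
            ∃ (R : Fin P.1 → Fin Q.1 → G → ℤ) (S : Fin Q.1 → Fin P.1 → G → ℤ),
              P.2 = (fun i l g => ∑ j, ∑ h : G, R i j h * S j l (h⁻¹ * g)) ∧
              Q.2 = (fun i l g => ∑ j, ∑ h : G, S i j h * R j l (h⁻¹ * g)))
          (f m) A) ∧
      ∀ m m', m ≠ m' → ¬ Relation.EqvGen
          (fun P Q : (Σ n : ℕ, (Fin n → Fin n → G → ℤ)) =>
            ∃ (R : Fin P.1 → Fin Q.1 → G → ℤ) (S : Fin Q.1 → Fin P.1 → G → ℤ),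
              (∀ i j g, 0 ≤ R i j g) ∧ (∀ i j g, 0 ≤ S i j g) ∧
              P.2 = (fun i l g => ∑ j, ∑ h : G, R i j h * S j l (h⁻¹ * g)) ∧
              Q.2 = (fun i l g => ∑ j, ∑ h : G, S i j h * R j l (h⁻¹ * g)))
          (f m) (f m') := by
  intro G _ _ _ d θ g0 htr A hA hn J hJ
  exact many θ g0 htr A.2 hA hn J hJ

end Pool.Agent.Results.MP_71aad1_an.NilpotentImage
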