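import Mathlib
import Pool.Agent.Helper817_sse.Star

set_option autoImplicit false

namespace Pool.Agent.Results.MP_71aad1_an.SameAugmentation

open Pool.Agent.Helper817_sse

/-- For every nontrivial finite group `G` and every `N` there are a `G`-primitive matrix `A` and `N`
`G`-primitive matrices of the same size and with the same augmentation as `A`, strong shift
equivalent to `A` over the integral group ring, and pairwise not strong shift equivalent over the
positive cone of the group ring. -/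
theorem result :
  ∀ (G : Type) [Group G] [Fintype G] [Nontrivial G] (N : ℕ),
    ∃ (n : ℕ) (A : Fin n → Fin n → G → ℤ) (f : Fin N → (Fin n → Fin n → G → ℤ)),
      (0 < n ∧ (∀ i j g, 0 ≤ A i j g) ∧
        ∃ k : ℕ, ∀ i j g, 0 <
          ((fun M : Fin n → Fin n → G → ℤ =>
              fun i l g => ∑ j, ∑ h : G, M i j h * A j l (h⁻¹ * g))^[k] A) i j g) ∧
      (∀ m, (0 < n ∧ (∀ i j g, 0 ≤ f m i j g) ∧
          ∃ k : ℕ, ∀ i j g, 0 <
            ((fun M : Fin n → Fin n → G → ℤ =>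
                fun i l g => ∑ j, ∑ h : G, M i j h * f m j l (h⁻¹ * g))^[k] (f m)) i j g) ∧
        (∀ i j, ∑ g, f m i j g = ∑ g, A i j g) ∧
        Relation.EqvGen
          (fun P Q : (Σ n : ℕ, (Fin n → Fin n → G → ℤ)) =>
            ∃ (R : Fin P.1 → Fin Q.1 → G → ℤ) (S : Fin Q.1 → Fin P.1 → G → ℤ),
              P.2 = (fun i l g => ∑ j, ∑ h : G, R i j h * S j l (h⁻¹ * g)) ∧
              Q.2 = (fun i l g => ∑ j, ∑ h : G, S i j h * R j l (h⁻¹ * g)))
          ⟨n, f m⟩ ⟨n, A⟩) ∧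
      ∀ m m', m ≠ m' → ¬ Relation.EqvGen
          (fun P Q : (Σ n : ℕ, (Fin n → Fin n → G → ℤ)) =>
            ∃ (R : Fin P.1 → Fin Q.1 → G → ℤ) (S : Fin Q.1 → Fin P.1 → G → ℤ),
              (∀ i j g, 0 ≤ R i j g) ∧ (∀ i j g, 0 ≤ S i j g) ∧
              P.2 = (fun i l g => ∑ j, ∑ h : G, R i j h * S j l (h⁻¹ * g)) ∧
              Q.2 = (fun i l g => ∑ j, ∑ h : G, S i j h * R j l (h⁻¹ * g)))
          ⟨n, f m⟩ ⟨n, f m'⟩ := by
  intro G _ _ _ N
  obtain ⟨n, A, f, h1, h2, h3, h4⟩ := conc_all G N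
  exact ⟨n, A, f, h1, fun m => ⟨(h2 m).1, h4 m, (h2 m).2⟩, h3⟩

end Pool.Agent.Results.MP_71aad1_an.SameAugmentation
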